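import Mathlib

/-!
# Real analysis for the singular Weinstein problem
-/

set_option autoImplicit false

namespace Pool.Agent.Q190.We

open Set Filter Topology Real

/-- a filter at an end of the line -/
def EndF (l : Filter ℝ) : Prop := l = atTop ∨ l = atBot

theorem EndF.mid {l : Filter ℝ} (hl : EndF l) {h : ℝ} {ξ : ℝ → ℝ} (h1 : ∀ t, t ≤ ξ t)
    (h2 : ∀ t, ξ t ≤ t + h) : Tendsto ξ l l := by
  rcases hl with rfl | rfl
  · exact tendsto_atTop_mono h1 tendsto_id
  · exact tendsto_atBot_mono h2 (tendsto_atBot_add_const_right _ _ tendsto_id)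

theorem EndF.neBot {l : Filter ℝ} (hl : EndF l) : l.NeBot := by
  rcases hl with rfl | rfl <;> infer_instance

/-- if the class of `f` modulo `2π` converges and the derivative converges, the limit of the
derivative is zero -/
theorem deriv_lim_zero {l : Filter ℝ} (hl : EndF l) {f f' : ℝ → ℝ} (hf : ∀ t, HasDerivAt f (f' t) t)
    {c : ℝ} (hf' : Tendsto f' l (𝓝 c)) {Q : Circle} (hQ : Tendsto (fun t => Circle.exp (f t)) l (𝓝 Q)) :
    c = 0 := by
  haveI := hl.neBot
  have key : ∀ h : ℝ, 0 < h → Circle.exp (c * h) = 1 := by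
    intro h hh
    have h1 : ∀ t, ∃ ξ, t ≤ ξ ∧ ξ ≤ t + h ∧ f (t + h) - f t = f' ξ * h := by
      intro t
      obtain ⟨ξ, hξ, h2⟩ := exists_hasDerivAt_eq_slope f f' (show t < t + h by linarith)
        (fun x _ => (hf x).continuousAt.continuousWithinAt) (fun x _ => hf x)
      refine ⟨ξ, hξ.1.le, hξ.2.le, ?_⟩
      rw [h2, add_sub_cancel_left, div_mul_cancel₀ _ hh.ne']
    choose ξ h2 h3 h4 using h1
    have h5 : Tendsto ξ l l := hl.mid h2 h3
    have h6 : Tendsto (fun t => f (t + h) - f t) l (𝓝 (c * h)) := by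
      simp_rw [h4]
      exact (hf'.comp h5).mul_const h
    have h7 : Tendsto (fun t => Circle.exp (f (t + h) - f t)) l (𝓝 (Circle.exp (c * h))) :=
      (Circle.exp.continuous.tendsto _).comp h6
    have h8 : Tendsto (fun t : ℝ => t + h) l l :=
      hl.mid (fun t => by linarith) (fun t => le_rfl)
    have h9 : Tendsto (fun t => Circle.exp (f (t + h) - f t)) l (𝓝 (Q / Q)) := by
      have : (fun t => Circle.exp (f (t + h) - f t)) =
          fun t => Circle.exp (f (t + h)) / Circle.exp (f t) := by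
        funext t; rw [Circle.exp_sub]
      rw [this]
      exact (hQ.comp h8).div' hQ
    rw [div_self'] at h9
    exact tendsto_nhds_unique h7 h9
  by_contra hc
  have h1 := key (π / |c|) (by positivity)
  rw [Circle.exp_eq_one] at h1
  obtain ⟨n, hn⟩ := h1
  have hc' : 0 < |c| := abs_pos.2 hc
  have h2 : |c * (π / |c|)| = π := by
    rw [abs_mul, abs_div, abs_abs, abs_of_pos pi_pos]
    field_simp
  rw [hn, abs_mul, abs_of_pos (show (0:ℝ) < 2 * π by positivity)] at h2
  have h3 : |(n : ℝ)| = 1 / 2 := by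
    have := pi_pos
    field_simp
    nlinarith
  have h4 : ((|n| : ℤ) : ℝ) = 1 / 2 := by rw [Int.cast_abs]; exact h3
  have h5 : ((2 * |n| : ℤ) : ℝ) = ((1 : ℤ) : ℝ) := by push_cast; rw [h3]; norm_num
  have h6 : 2 * |n| = 1 := by exact_mod_cast h5
  omega

/-- a function which is strictly decreasing near both ends and has the same limit at both ends takes
values larger and values smaller than the limit -/
theorem both_sides {g g' : ℝ → ℝ} (hg : ∀ t, HasDerivAt g (g' t) t) {c : ℝ}
    (h1 : Tendsto g atTop (𝓝 c)) (h2 : Tendsto g atBot (𝓝 c)) (h3 : ∀ᶠ t in atTop, g' t < 0)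
    (h4 : ∀ᶠ t in atBot, g' t < 0) : (∃ t, c < g t) ∧ ∃ t, g t < c := by
  constructor
  · obtain ⟨T, hT⟩ := eventually_atTop.1 h3
    have h5 : StrictAntiOn g (Ici T) := strictAntiOn_of_deriv_neg (convex_Ici T)
      (fun x _ => (hg x).continuousAt.continuousWithinAt) (fun x hx => by
        rw [(hg x).deriv]; exact hT x (interior_subset hx))
    refine ⟨T, ?_⟩
    have h6 : c ≤ g (T + 1) := by
      refine le_of_tendsto h1 ?_
      filter_upwards [eventually_ge_atTop (T + 1)] with t ht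
      exact h5.antitoneOn (Set.mem_Ici.2 (by linarith)) (Set.mem_Ici.2 (by linarith)) ht
    exact lt_of_le_of_lt h6 (h5 (Set.mem_Ici.2 (le_refl T)) (Set.mem_Ici.2 (by linarith))
      (by linarith))
  · obtain ⟨T, hT⟩ := eventually_atBot.1 h4
    have h5 : StrictAntiOn g (Iic T) := strictAntiOn_of_deriv_neg (convex_Iic T)
      (fun x _ => (hg x).continuousAt.continuousWithinAt) (fun x hx => by
        have h7 : x ∈ Iic T := interior_subset hx
        rw [(hg x).deriv]; exact hT x h7)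
    refine ⟨T, ?_⟩
    have h6 : g (T - 1) ≤ c := by
      refine ge_of_tendsto h2 ?_
      filter_upwards [eventually_le_atBot (T - 1)] with t ht
      exact h5.antitoneOn (Set.mem_Iic.2 (by linarith))
        (Set.mem_Iic.2 (by linarith)) ht
    exact lt_of_lt_of_le (h5 (Set.mem_Iic.2 (by linarith)) (Set.mem_Iic.2 (le_refl T))
      (by linarith)) h6

/-- the data at one end -/
structure EndD (l : Filter ℝ) (x p s : ℝ → ℝ) (c q : ℝ) : Prop where
  hc : c ^ 2 = 1
  hq : q ^ 2 = 1
  tc : Tendsto (fun t => cos (x t)) l (𝓝 c)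
  tp : Tendsto p l (𝓝 q)
  ts : Tendsto s l (𝓝 0)

/-- no orbit off `Z` with limits on `Z` at both ends -/
theorem no_singular (m : ℕ) (ν : ℝ) (hν : 0 < ν) (x p s : ℝ → ℝ)
    (hx : ∀ t, HasDerivAt x (sin (x t) ^ m * (p t - (2 - cos (x t)) * s t)) t)
    (hμ : ∀ t t', s t + ν * (2 - cos (x t)) * p t = s t' + ν * (2 - cos (x t')) * p t')
    (hs : ∀ t, sin (x t) ≠ 0) {c q c' q' : ℝ} (D : EndD atTop x p s c q)
    (D' : EndD atBot x p s c' q') : False := by
  have hcont : Continuous x := continuous_iff_continuousAt.2 fun t => (hx t).continuousAt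
  -- the momentum
  have t1 : Tendsto (fun t => s t + ν * (2 - cos (x t)) * p t) atTop (𝓝 (0 + ν * (2 - c) * q)) :=
    D.ts.add ((tendsto_const_nhds.mul (tendsto_const_nhds.sub D.tc)).mul D.tp)
  have t2 : Tendsto (fun t => s t + ν * (2 - cos (x t)) * p t) atBot (𝓝 (0 + ν * (2 - c') * q')) :=
    D'.ts.add ((tendsto_const_nhds.mul (tendsto_const_nhds.sub D'.tc)).mul D'.tp)
  have e1 : (fun t => s t + ν * (2 - cos (x t)) * p t) =
      fun _ => s 0 + ν * (2 - cos (x 0)) * p 0 := funext fun t => hμ t 0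
  rw [e1] at t1 t2
  have e2 := tendsto_nhds_unique t1 tendsto_const_nhds
  have e3 := tendsto_nhds_unique t2 tendsto_const_nhds
  have e4 : (2 - c) * q = (2 - c') * q' := by
    have : ν * ((2 - c) * q) = ν * ((2 - c') * q') := by linarith
    exact mul_left_cancel₀ hν.ne' this
  have c1 := D.hc; have c2 := D'.hc; have q1 := D.hq; have q2 := D'.hq
  have hc : c = 1 ∨ c = -1 := mul_self_eq_one_iff.1 (by rw [← sq]; exact c1)
  have hc' : c' = 1 ∨ c' = -1 := mul_self_eq_one_iff.1 (by rw [← sq]; exact c2)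
  have hq : q = 1 ∨ q = -1 := mul_self_eq_one_iff.1 (by rw [← sq]; exact q1)
  have hq' : q' = 1 ∨ q' = -1 := mul_self_eq_one_iff.1 (by rw [← sq]; exact q2)
  have e5 : c = c' ∧ q = q' := by
    rcases hc with rfl | rfl <;> rcases hc' with rfl | rfl <;> rcases hq with rfl | rfl <;>
      rcases hq' with rfl | rfl <;> first | exact ⟨rfl, rfl⟩ | (exfalso; norm_num at e4)
  obtain ⟨rfl, rfl⟩ := e5
  -- the function g
  have hg : ∀ t, HasDerivAt (fun t => cos (x t))
      (-(sin (x t) ^ (m + 1) * (p t - (2 - cos (x t)) * s t))) t := by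
    intro t
    have := (hx t).cos
    refine this.congr_deriv ?_
    rw [pow_succ]; ring
  have hlim : ∀ l, EndD l x p s c q → Tendsto (fun t => p t - (2 - cos (x t)) * s t) l (𝓝 q) := by
    intro l D
    have := D.tp.sub ((tendsto_const_nhds.sub D.tc).mul D.ts : Tendsto
      (fun t => (2 - cos (x t)) * s t) l (𝓝 ((2 - c) * 0)))
    rwa [mul_zero, sub_zero] at this
  have hL := hlim _ D
  have hL' := hlim _ D'
  -- the sign of sin x
  have hw : (∀ t, 0 < sin (x t) ^ (m + 1)) ∨ (∀ t, sin (x t) ^ (m + 1) < 0) := by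
    have hne : ∀ t, sin (x t) ^ (m + 1) ≠ 0 := fun t => pow_ne_zero _ (hs t)
    have hcw : Continuous fun t => sin (x t) ^ (m + 1) := (continuous_sin.comp hcont).pow _
    by_contra hcon
    push Not at hcon
    obtain ⟨⟨a, ha⟩, ⟨b, hb⟩⟩ := hcon
    have h0 : (0 : ℝ) ∈ Set.range fun t => sin (x t) ^ (m + 1) :=
      mem_range_of_exists_le_of_exists_ge hcw ⟨a, ha⟩ ⟨b, hb⟩
    obtain ⟨t, ht⟩ := h0
    exact hne t ht
  have hb1 : ∀ t, cos (x t) ≤ 1 := fun t => cos_le_one _
  have hb2 : ∀ t, -1 ≤ cos (x t) := fun t => neg_one_le_cos _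
  -- sign of w * q
  have hcase : (∀ᶠ t in atTop, 0 < sin (x t) ^ (m + 1) * (p t - (2 - cos (x t)) * s t)) ∧
      (∀ᶠ t in atBot, 0 < sin (x t) ^ (m + 1) * (p t - (2 - cos (x t)) * s t)) ∨
      (∀ᶠ t in atTop, sin (x t) ^ (m + 1) * (p t - (2 - cos (x t)) * s t) < 0) ∧
      (∀ᶠ t in atBot, sin (x t) ^ (m + 1) * (p t - (2 - cos (x t)) * s t) < 0) := by
    rcases hw with hw | hw <;> rcases hq with rfl | rfl
    · left
      exact ⟨(hL.eventually (lt_mem_nhds one_pos)).mono fun t ht => mul_pos (hw t) ht,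
        (hL'.eventually (lt_mem_nhds one_pos)).mono fun t ht => mul_pos (hw t) ht⟩
    · right
      exact ⟨(hL.eventually (gt_mem_nhds neg_one_lt_zero)).mono
          fun t ht => mul_neg_of_pos_of_neg (hw t) ht,
        (hL'.eventually (gt_mem_nhds neg_one_lt_zero)).mono
          fun t ht => mul_neg_of_pos_of_neg (hw t) ht⟩
    · right
      exact ⟨(hL.eventually (lt_mem_nhds one_pos)).mono
          fun t ht => mul_neg_of_neg_of_pos (hw t) ht,
        (hL'.eventually (lt_mem_nhds one_pos)).mono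
          fun t ht => mul_neg_of_neg_of_pos (hw t) ht⟩
    · left
      exact ⟨(hL.eventually (gt_mem_nhds neg_one_lt_zero)).mono
          fun t ht => mul_pos_of_neg_of_neg (hw t) ht,
        (hL'.eventually (gt_mem_nhds neg_one_lt_zero)).mono
          fun t ht => mul_pos_of_neg_of_neg (hw t) ht⟩
  rcases hcase with ⟨k1, k2⟩ | ⟨k1, k2⟩
  · obtain ⟨⟨a, ha⟩, ⟨b, hb⟩⟩ := both_sides hg D.tc D'.tc (k1.mono fun t ht => by linarith)
      (k2.mono fun t ht => by linarith)
    have := hb1 a; have := hb2 b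
    rcases hc with rfl | rfl <;> linarith
  · have hg' : ∀ t, HasDerivAt (fun t => -cos (x t))
        (sin (x t) ^ (m + 1) * (p t - (2 - cos (x t)) * s t)) t := by
      intro t
      have := (hg t).fun_neg
      rwa [neg_neg] at this
    obtain ⟨⟨a, ha⟩, ⟨b, hb⟩⟩ := both_sides hg' D.tc.neg D'.tc.neg k1 k2
    have := hb1 b; have := hb2 a
    rcases hc with rfl | rfl <;> linarith

/-- at a minimum of `cos x` along a periodic orbit off `Z`, `p` and `s` vanish -/
theorem periodic_min (m : ℕ) (ν : ℝ) (hν : 0 < ν) (x p s : ℝ → ℝ)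
    (hx : ∀ t, HasDerivAt x (sin (x t) ^ m * (p t - (2 - cos (x t)) * s t)) t)
    (hp : ∀ t, HasDerivAt p (sin (x t) ^ m * (p t * sin (x t) * s t)) t)
    (hs' : ∀ t, HasDerivAt s (-ν * (sin (x t) * (sin (x t) ^ m * (p t - (2 - cos (x t)) * s t)) * p t
      + (2 - cos (x t)) * (sin (x t) ^ m * (p t * sin (x t) * s t)))) t)
    (hs : ∀ t, sin (x t) ≠ 0) {T : ℝ} (hT : 0 < T)
    (hper : Function.Periodic (fun t => cos (x t)) T) : ∃ t, p t = 0 ∧ s t = 0 := by
  have hcont : Continuous x := continuous_iff_continuousAt.2 fun t => (hx t).continuousAt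
  have hcg : Continuous fun t => cos (x t) := continuous_cos.comp hcont
  obtain ⟨t₀, _, hmin⟩ := isCompact_Icc.exists_isMinOn (nonempty_Icc.2 hT.le) hcg.continuousOn
  have hglob : ∀ t, cos (x t₀) ≤ cos (x t) := by
    intro t
    obtain ⟨y, hy, hxy⟩ := hper.exists_mem_Ico₀ hT t
    have h1 : cos (x t) = cos (x y) := hxy
    rw [h1]
    exact hmin ⟨hy.1, hy.2.le⟩
  have hg : ∀ t, HasDerivAt (fun t => cos (x t))
      (-(sin (x t) ^ (m + 1) * (p t - (2 - cos (x t)) * s t))) t := by
    intro t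
    refine (hx t).cos.congr_deriv ?_
    rw [pow_succ]; ring
  have hlocmin : IsLocalMin (fun t => cos (x t)) t₀ := Eventually.of_forall hglob
  have h0 : p t₀ - (2 - cos (x t₀)) * s t₀ = 0 := by
    have h1 := hlocmin.hasDerivAt_eq_zero (hg t₀)
    rw [neg_eq_zero] at h1
    exact (mul_eq_zero.1 h1).resolve_left (pow_ne_zero _ (hs t₀))
  have he : 0 < 2 - cos (x t₀) := by have := cos_le_one (x t₀); linarith
  refine ⟨t₀, ?_⟩
  by_contra hne
  have hs0 : s t₀ ≠ 0 := by
    intro h
    have : p t₀ = 0 := by rw [h, mul_zero, sub_zero] at h0; exact h0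
    exact hne ⟨this, h⟩
  -- second derivative
  have hh : HasDerivAt (fun t => p t - (2 - cos (x t)) * s t)
      (sin (x t₀) ^ (m + 1) * (2 - cos (x t₀)) * (s t₀) ^ 2 * (1 + ν * (2 - cos (x t₀)) ^ 2)) t₀ := by
    have h1 := (hp t₀).sub ((((hx t₀).cos.const_sub 2)).mul (hs' t₀))
    refine h1.congr_deriv ?_
    have h2 : p t₀ = (2 - cos (x t₀)) * s t₀ := by linarith
    rw [h0, h2, pow_succ]
    ring
  have hsin : HasDerivAt (fun t => sin (x t) ^ (m + 1)) 0 t₀ := by
    have h1 := ((hx t₀).sin).pow (m + 1)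
    refine h1.congr_deriv ?_
    rw [h0]; ring
  have h2 : HasDerivAt (fun t => -(sin (x t) ^ (m + 1) * (p t - (2 - cos (x t)) * s t)))
      (-(sin (x t₀) ^ (m + 1) * (sin (x t₀) ^ (m + 1) * (2 - cos (x t₀)) * (s t₀) ^ 2 *
        (1 + ν * (2 - cos (x t₀)) ^ 2)))) t₀ := by
    have h3 := (hsin.mul hh).neg
    refine h3.congr_deriv ?_
    ring
  have hneg : -(sin (x t₀) ^ (m + 1) * (sin (x t₀) ^ (m + 1) * (2 - cos (x t₀)) * (s t₀) ^ 2 *
        (1 + ν * (2 - cos (x t₀)) ^ 2))) < 0 := by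
    have h3 : 0 < (sin (x t₀) ^ (m + 1)) ^ 2 := by
      have := pow_ne_zero (m + 1) (hs t₀)
      positivity
    have h4 : 0 < (s t₀) ^ 2 := by positivity
    have h5 : sin (x t₀) ^ (m + 1) * (sin (x t₀) ^ (m + 1) * (2 - cos (x t₀)) * (s t₀) ^ 2 *
        (1 + ν * (2 - cos (x t₀)) ^ 2)) = (sin (x t₀) ^ (m + 1)) ^ 2 * ((2 - cos (x t₀)) * (s t₀) ^ 2 *
        (1 + ν * (2 - cos (x t₀)) ^ 2)) := by ring
    rw [h5]
    have h6 : 0 < (sin (x t₀) ^ (m + 1)) ^ 2 * ((2 - cos (x t₀)) * (s t₀) ^ 2 *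
        (1 + ν * (2 - cos (x t₀)) ^ 2)) := by positivity
    linarith
  have hd1 : deriv (fun t => cos (x t)) =
      fun t => -(sin (x t) ^ (m + 1) * (p t - (2 - cos (x t)) * s t)) :=
    funext fun t => (hg t).deriv
  have hmax : IsLocalMax (fun t => cos (x t)) t₀ := by
    have h3 : IsLocalMin (fun t => -cos (x t)) t₀ := by
      apply isLocalMin_of_deriv_deriv_pos
      · have h4 : deriv (fun t => -cos (x t)) = fun t =>
            sin (x t) ^ (m + 1) * (p t - (2 - cos (x t)) * s t) := funext fun t => by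
          have := (hg t).fun_neg.deriv
          rwa [neg_neg] at this
        rw [h4]
        have h5 := h2.fun_neg
        simp only [neg_neg] at h5
        rw [h5.deriv]
        linarith
      · rw [(hg t₀).fun_neg.deriv, h0]; ring
      · exact hcg.neg.continuousAt
    have h4 := h3.neg
    simpa using h4
  -- locally constant
  have hconst : (fun t => cos (x t)) =ᶠ[𝓝 t₀] fun _ => cos (x t₀) := by
    filter_upwards [hmax] with t ht
    exact le_antisymm ht (hglob t)
  have h3 : deriv (fun t => cos (x t)) =ᶠ[𝓝 t₀] fun _ => 0 := by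
    have := hconst.deriv
    simpa using this
  have h4 : deriv (deriv (fun t => cos (x t))) t₀ = 0 := by
    rw [h3.deriv_eq]; simp
  rw [hd1, h2.deriv] at h4
  linarith

end Pool.Agent.Q190.We
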