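import Mathlib

/-!
# `b^m`-contact forms on `T^{n+1} × S^n`

`T^{n+1} = (ℝ / 2πℤ)^{n+1}` with the coordinates `(x, φ) = (x, φ_1, …, φ_n)` and
`S^n ⊆ ℝ^{n+1}` with the coordinates `(p₀, p) = (p₀, p_1, …, p_n)`, `p₀² + |p|² = 1`.  The closed
manifold `T^{n+1} × S^n` has dimension `2n+1`.  The critical set is `Z = {sin x = 0}`, with the
defining function `z = sin x`.  The sections of the `b^m`-tangent bundle are the fields
`ξ sin^m x ∂_x + ∑ η_j ∂_{φ_j} + π₀ ∂_{p₀} + ∑ π_j ∂_{p_j}` with smooth coefficients which are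
tangent to the sphere.  Points are given by coordinates in the covering `ℝ^{n+1} × S^n`, and all
objects are `2π`-periodic in `x` and `φ_j`.
-/

set_option autoImplicit false

namespace Pool.Agent.Q190.We

open Filter Topology

/-- Coordinates `(x, φ, p₀, p)`; also components `(ξ, η, π₀, π)` of `b^m`-vectors and components of
`b^m`-forms. -/
abbrev E (n : ℕ) : Type := ℝ × (Fin n → ℝ) × ℝ × (Fin n → ℝ)

/-- The covering `ℝ^{n+1} × S^n` of `T^{n+1} × S^n`. -/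
def Mfd (n : ℕ) : Set (E n) := {P | P.2.2.1 ^ 2 + ∑ j, P.2.2.2 j ^ 2 = 1}

/-- The projection to `T^{n+1} × S^n ⊆ T^{n+1} × ℝ^{n+1}`; the circle `ℝ/2πℤ` is the unit circle in
the plane. -/
noncomputable def proj {n : ℕ} (P : E n) : Circle × (Fin n → Circle) × ℝ × (Fin n → ℝ) :=
  (Circle.exp P.1, fun j => Circle.exp (P.2.1 j), P.2.2)

/-- The critical set `Z = {sin x = 0}` in `T^{n+1} × ℝ^{n+1}`. -/
def Z (n : ℕ) : Set (Circle × (Fin n → Circle) × ℝ × (Fin n → ℝ)) := {Q | (Q.1 : ℂ).im = 0}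

/-- The `b^m`-tangent space at `P`: the components `(ξ, η, π₀, π)` stand for the vector
`ξ sin^m x ∂_x + ∑ η_j ∂_{φ_j} + π₀ ∂_{p₀} + ∑ π_j ∂_{p_j}`, tangent to the sphere. -/
def bT {n : ℕ} (P : E n) : Set (E n) := {X | P.2.2.1 * X.2.2.1 + ∑ j, P.2.2.2 j * X.2.2.2 j = 0}

/-- The anchor: the vector of `ℝ^{2n+2}` with the components `X`. -/
noncomputable def anchor (m : ℕ) {n : ℕ} (P X : E n) : E n := (Real.sin P.1 ^ m * X.1, X.2)

/-- The value at the point `P` and the vector with the components `X` of the `b^m`-form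
`A₀ dx / sin^m x + ∑ A_j dφ_j + B₀ dp₀ + ∑ B_j dp_j`, where `A P = (A₀, (A_j), B₀, (B_j))`. -/
def ev {n : ℕ} (A : E n → E n) (P X : E n) : ℝ :=
  (A P).1 * X.1 + ∑ j, (A P).2.1 j * X.2.1 j + (A P).2.2.1 * X.2.2.1 +
    ∑ j, (A P).2.2.2 j * X.2.2.2 j

/-- The derivative at `P` in the direction `W` of the function `Q ↦ A_Q(Y)`. -/
noncomputable def der {n : ℕ} (A : E n → E n) (P W Y : E n) : ℝ :=
  deriv (fun t : ℝ => ev A (P + t • W) Y) 0

/-- The exterior derivative of the `b^m`-form `A` at `P`, evaluated at two `b^m`-vectors (the fields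
`sin^m x ∂_x`, `∂_{φ_j}`, `∂_{p_j}` commute): `dA(X, Y) = X(A(Y)) - Y(A(X))`. -/
noncomputable def dA (m : ℕ) {n : ℕ} (A : E n → E n) (P X Y : E n) : ℝ :=
  der A P (anchor m P X) Y - der A P (anchor m P Y) X

/-- The components are smooth. -/
def SmoothC {n : ℕ} (F : E n → E n) : Prop := ContDiff ℝ (⊤ : ℕ∞) F

/-- `F` is `2π`-periodic in `x` and in all `φ_j`. -/
def IsPer {n : ℕ} (F : E n → E n) : Prop :=
  ∀ (P : E n) (k : ℤ) (l : Fin n → ℤ),
    F (P.1 + 2 * Real.pi * k, fun j => P.2.1 j + 2 * Real.pi * l j, P.2.2) = F P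

/-- `A` is a `b^m`-contact form on `T^{n+1} × S^n`: smooth, nowhere zero, and `dA` is nondegenerate on
the kernel of `A` (that is, `A ∧ (dA)^n` is nowhere zero). -/
structure IsBmContact (m n : ℕ) (A : E n → E n) : Prop where
  smooth : SmoothC A
  periodic : IsPer A
  nondeg : ∀ P ∈ Mfd n, ∀ X ∈ bT P, ev A P X = 0 →
    (∀ Y ∈ bT P, ev A P Y = 0 → dA m A P X Y = 0) → X = 0
  ne : ∀ P ∈ Mfd n, ∃ X ∈ bT P, ev A P X ≠ 0

/-- `R` is the Reeb field of `A`. -/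
structure IsReeb (m n : ℕ) (A R : E n → E n) : Prop where
  smooth : SmoothC R
  periodic : IsPer R
  tangent : ∀ P ∈ Mfd n, R P ∈ bT P
  one : ∀ P ∈ Mfd n, ev A P (R P) = 1
  zero : ∀ P ∈ Mfd n, ∀ Y ∈ bT P, dA m A P (R P) Y = 0

/-- `γ' = V(γ)`, in coordinates -/
structure Solves {n : ℕ} (V : E n → E n) (γ : ℝ → E n) : Prop where
  x : ∀ t, HasDerivAt (fun t => (γ t).1) (V (γ t)).1 t
  φ : ∀ t j, HasDerivAt (fun t => (γ t).2.1 j) ((V (γ t)).2.1 j) t
  p₀ : ∀ t, HasDerivAt (fun t => (γ t).2.2.1) (V (γ t)).2.2.1 t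
  p : ∀ t j, HasDerivAt (fun t => (γ t).2.2.2 j) ((V (γ t)).2.2.2 j) t

/-- `γ` is an integral curve of `R` in `M \ Z` (lifted to the covering). -/
structure IsOrbit (m n : ℕ) (R : E n → E n) (γ : ℝ → E n) : Prop where
  mem : ∀ t, γ t ∈ Mfd n
  off : ∀ t, proj (γ t) ∉ Z n
  ode : Solves (fun P => anchor m P (R P)) γ

/-- Both limits exist in the compact manifold and lie in `Z`. -/
def LimitsInZ {n : ℕ} (γ : ℝ → E n) : Prop :=
  (∃ Q ∈ Z n, Tendsto (fun t => proj (γ t)) atTop (𝓝 Q)) ∧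
    ∃ Q ∈ Z n, Tendsto (fun t => proj (γ t)) atBot (𝓝 Q)

/-- The curve is periodic in `T^{n+1} × S^n`. -/
def Closed {n : ℕ} (γ : ℝ → E n) : Prop := ∃ T : ℝ, 0 < T ∧ ∀ t, proj (γ (t + T)) = proj (γ t)

end Pool.Agent.Q190.We
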