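import Pool.Agent.Q190.We.Main

/-!
# The orbits
-/

set_option autoImplicit false

namespace Pool.Agent.Q190.We

open Filter Topology Real

variable {n : ℕ}

theorem fA_smooth (v : Fin n → ℝ) : SmoothC (fA v) := by
  unfold SmoothC fA
  fun_prop

theorem sv_smooth (v : Fin n → ℝ) : ContDiff ℝ (⊤ : ℕ∞) (sv v) := by
  unfold sv
  fun_prop

theorem fR_smooth (m : ℕ) (v : Fin n → ℝ) : SmoothC (fR m v) := by
  have := sv_smooth v
  unfold SmoothC fR
  fun_prop

theorem cos_per (x : ℝ) (k : ℤ) : cos (x + 2 * π * k) = cos x := by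
  rw [mul_comm (2 * π) (k : ℝ)]; exact Real.cos_add_int_mul_two_pi x k

theorem sin_per (x : ℝ) (k : ℤ) : sin (x + 2 * π * k) = sin x := by
  rw [mul_comm (2 * π) (k : ℝ)]; exact Real.sin_add_int_mul_two_pi x k

theorem fA_per (v : Fin n → ℝ) : IsPer (fA v) := by
  intro P k l
  unfold fA
  simp only [cos_per]

theorem fR_per (m : ℕ) (v : Fin n → ℝ) : IsPer (fR m v) := by
  intro P k l
  unfold fR sv
  simp only [cos_per, sin_per]

theorem isBm (m : ℕ) (v : Fin n → ℝ) : IsBmContact m n (fA v) where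
  smooth := fA_smooth v
  periodic := fA_per v
  nondeg := fun _ hP _ hX hA h => nondeg m v hP hX hA h
  ne := fun P hP => ⟨fR m v P, reeb_tangent m v P, by
    rw [reeb_one m v hP]; exact one_ne_zero⟩

theorem isReeb (m : ℕ) (v : Fin n → ℝ) : IsReeb m n (fA v) (fR m v) where
  smooth := fR_smooth m v
  periodic := fR_per m v
  tangent := fun P _ => reeb_tangent m v P
  one := fun _ hP => reeb_one m v hP
  zero := fun P _ _ hY => reeb_zero m v P hY

section orbit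

variable {m : ℕ} {v : Fin n → ℝ} {γ : ℝ → E n} (h : IsOrbit m n (fR m v) γ)

include h

theorem dx (t : ℝ) : HasDerivAt (fun t => (γ t).1)
    (sin (γ t).1 ^ m * ((γ t).2.2.1 - (2 - cos (γ t).1) * sv v (γ t))) t :=
  h.ode.x t

theorem dφ (j : Fin n) (t : ℝ) : HasDerivAt (fun t => (γ t).2.1 j) ((γ t).2.2.2 j) t :=
  h.ode.φ t j

theorem d0 (t : ℝ) : HasDerivAt (fun t => (γ t).2.2.1)
    (sin (γ t).1 ^ m * ((γ t).2.2.1 * sin (γ t).1 * sv v (γ t))) t :=
  h.ode.p₀ t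

theorem dp (j : Fin n) (t : ℝ) : HasDerivAt (fun t => (γ t).2.2.2 j)
    (-(v j) * (sin (γ t).1 * (sin (γ t).1 ^ m * ((γ t).2.2.1 - (2 - cos (γ t).1) * sv v (γ t))) *
      (γ t).2.2.1 + (2 - cos (γ t).1) * (sin (γ t).1 ^ m * ((γ t).2.2.1 * sin (γ t).1 *
      sv v (γ t))))) t :=
  h.ode.p t j

theorem ds (t : ℝ) : HasDerivAt (fun t => sv v (γ t))
    (-(∑ j, v j ^ 2) * (sin (γ t).1 * (sin (γ t).1 ^ m * ((γ t).2.2.1 - (2 - cos (γ t).1) *
      sv v (γ t))) * (γ t).2.2.1 + (2 - cos (γ t).1) * (sin (γ t).1 ^ m * ((γ t).2.2.1 *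
      sin (γ t).1 * sv v (γ t))))) t := by
  have h1 : HasDerivAt (fun t => ∑ j, v j * (γ t).2.2.2 j) _ t :=
    HasDerivAt.fun_sum fun j _ => (dp h j t).const_mul (v j)
  refine h1.congr_deriv ?_
  rw [neg_mul, Finset.sum_mul, ← Finset.sum_neg_distrib]
  exact Finset.sum_congr rfl fun j _ => by ring

theorem mu_const (j : Fin n) (t t' : ℝ) :
    (γ t).2.2.2 j + v j * (2 - cos (γ t).1) * (γ t).2.2.1 =
      (γ t').2.2.2 j + v j * (2 - cos (γ t').1) * (γ t').2.2.1 := by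
  have h1 : ∀ t, HasDerivAt (fun t => (γ t).2.2.2 j + v j * (2 - cos (γ t).1) * (γ t).2.2.1) 0 t := by
    intro t
    have h2 := (dp h j t).add ((((dx h t).cos.const_sub 2).const_mul (v j)).mul (d0 h t))
    refine h2.congr_deriv ?_
    ring
  exact is_const_of_deriv_eq_zero (fun t => (h1 t).differentiableAt) (fun t => (h1 t).deriv) t t'

theorem mu_sum (t : ℝ) : ∑ j, v j * ((γ t).2.2.2 j + v j * (2 - cos (γ t).1) * (γ t).2.2.1) =
    sv v (γ t) + (∑ j, v j ^ 2) * (2 - cos (γ t).1) * (γ t).2.2.1 := by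
  unfold sv
  rw [Finset.sum_mul, Finset.sum_mul, ← Finset.sum_add_distrib]
  exact Finset.sum_congr rfl fun j _ => by ring

theorem sin_ne (t : ℝ) : sin (γ t).1 ≠ 0 := by
  intro h1
  refine h.off t ?_
  show ((Circle.exp (γ t).1 : Circle) : ℂ).im = 0
  rw [Circle.coe_exp, Complex.exp_ofReal_mul_I_im]
  exact h1

theorem endD {l : Filter ℝ} (hl : EndF l) {Q : Circle × (Fin n → Circle) × ℝ × (Fin n → ℝ)}
    (hQ : Q ∈ Z n) (hT : Tendsto (fun t => proj (γ t)) l (𝓝 Q)) :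
    EndD l (fun t => (γ t).1) (fun t => (γ t).2.2.1) (fun t => sv v (γ t)) (Q.1 : ℂ).re Q.2.2.1 := by
  haveI := hl.neBot
  have hT' := hT
  rw [Prod.tendsto_iff] at hT
  obtain ⟨t1, hT⟩ := hT
  rw [Prod.tendsto_iff] at hT
  obtain ⟨t2, hT⟩ := hT
  rw [Prod.tendsto_iff] at hT
  obtain ⟨t3, t4⟩ := hT
  rw [tendsto_pi_nhds] at t2 t4
  have hz : ∀ j, Q.2.2.2 j = 0 := fun j =>
    deriv_lim_zero hl (dφ h j) (t4 j) (t2 j)
  have tc : Tendsto (fun t => cos (γ t).1) l (𝓝 (Q.1 : ℂ).re) := by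
    have h1 : Tendsto (fun t => ((Circle.exp (γ t).1 : Circle) : ℂ).re) l (𝓝 (Q.1 : ℂ).re) :=
      (Complex.continuous_re.comp continuous_subtype_val).continuousAt.tendsto.comp t1
    refine h1.congr fun t => ?_
    rw [Circle.coe_exp, Complex.exp_ofReal_mul_I_re]
  refine ⟨?_, ?_, tc, t3, ?_⟩
  · have h1 : Complex.normSq (Q.1 : ℂ) = 1 := Circle.normSq_coe Q.1
    rw [Complex.normSq_apply] at h1
    have h2 : (Q.1 : ℂ).im = 0 := hQ
    rw [h2] at h1
    linarith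
  · have h1 : Tendsto (fun t => (γ t).2.2.1 ^ 2 + ∑ j, (γ t).2.2.2 j ^ 2) l
        (𝓝 (Q.2.2.1 ^ 2 + ∑ j, Q.2.2.2 j ^ 2)) :=
      (t3.pow 2).add (tendsto_finsetSum _ fun j _ => (t4 j).pow 2)
    have h2 : (fun t => (γ t).2.2.1 ^ 2 + ∑ j, (γ t).2.2.2 j ^ 2) = fun _ => 1 :=
      funext fun t => h.mem t
    rw [h2] at h1
    have h3 := tendsto_nhds_unique h1 tendsto_const_nhds
    simpa [hz] using h3
  · have h1 : Tendsto (fun t => sv v (γ t)) l (𝓝 (∑ j, v j * Q.2.2.2 j)) :=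
      tendsto_finsetSum _ fun j _ => (t4 j).const_mul (v j)
    simpa [hz] using h1

theorem no_limits (hv : 0 < ∑ j, v j ^ 2) : ¬ LimitsInZ γ := by
  rintro ⟨⟨Q, hQ, h1⟩, ⟨Q', hQ', h2⟩⟩
  refine no_singular m (∑ j, v j ^ 2) hv (fun t => (γ t).1) (fun t => (γ t).2.2.1)
    (fun t => sv v (γ t)) (dx h) (fun t t' => ?_) (sin_ne h) (endD h (Or.inl rfl) hQ h1)
    (endD h (Or.inr rfl) hQ' h2)
  show sv v (γ t) + (∑ j, v j ^ 2) * (2 - cos (γ t).1) * (γ t).2.2.1 = sv v (γ t') +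
    (∑ j, v j ^ 2) * (2 - cos (γ t').1) * (γ t').2.2.1
  rw [← mu_sum h t, ← mu_sum h t']
  exact Finset.sum_congr rfl fun j _ => by rw [mu_const h j t t']

theorem not_closed (hv : 0 < ∑ j, v j ^ 2) (hli : LinearIndependent ℚ v) : ¬ Closed γ := by
  rintro ⟨T, hT, hper⟩
  have hcos : Function.Periodic (fun t => cos (γ t).1) T := by
    intro t
    have h1 := congrArg (fun Q : Circle × (Fin n → Circle) × ℝ × (Fin n → ℝ) => (Q.1 : ℂ).re) (hper t)
    simp only [proj, Circle.coe_exp, Complex.exp_ofReal_mul_I_re] at h1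
    exact h1
  obtain ⟨t₀, hp0, hs0⟩ := periodic_min m (∑ j, v j ^ 2) hv (fun t => (γ t).1)
    (fun t => (γ t).2.2.1) (fun t => sv v (γ t)) (dx h) (d0 h) (ds h) (sin_ne h) hT hcos
  -- the momenta
  set μ : Fin n → ℝ := fun j => (γ t₀).2.2.2 j with hμ
  have h1 : ∀ t j, (γ t).2.2.2 j + v j * (2 - cos (γ t).1) * (γ t).2.2.1 = μ j := by
    intro t j
    rw [mu_const h j t t₀, hp0, mul_zero, add_zero]
  have h2 : ∑ j, μ j ^ 2 = 1 := by
    have h3 : (γ t₀).2.2.1 ^ 2 + ∑ j, (γ t₀).2.2.2 j ^ 2 = 1 := h.mem t₀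
    rw [hp0] at h3
    simpa using h3
  have h3 : ∑ j, v j * μ j = 0 := hs0
  -- `p₀ = 0`
  have h4 : ∀ t, (γ t).2.2.1 = 0 := by
    intro t
    have h5 : (γ t).2.2.1 ^ 2 + ∑ j, (γ t).2.2.2 j ^ 2 = 1 := h.mem t
    have h6 : ∑ j, (γ t).2.2.2 j ^ 2 = ∑ j, μ j ^ 2 - 2 * ((2 - cos (γ t).1) * (γ t).2.2.1) *
        ∑ j, v j * μ j + ((2 - cos (γ t).1) * (γ t).2.2.1) ^ 2 * ∑ j, v j ^ 2 := by
      rw [Finset.mul_sum, Finset.mul_sum, ← Finset.sum_sub_distrib, ← Finset.sum_add_distrib]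
      refine Finset.sum_congr rfl fun j _ => ?_
      have h7 : (γ t).2.2.2 j = μ j - v j * (2 - cos (γ t).1) * (γ t).2.2.1 := by
        rw [← h1 t j]; ring
      rw [h7]; ring
    rw [h6, h2, h3] at h5
    have h7 : (γ t).2.2.1 ^ 2 * (1 + (2 - cos (γ t).1) ^ 2 * ∑ j, v j ^ 2) = 0 := by
      linear_combination h5
    have h8 : 0 < 1 + (2 - cos (γ t).1) ^ 2 * ∑ j, v j ^ 2 := by positivity
    exact pow_eq_zero_iff (two_ne_zero) |>.1 ((mul_eq_zero.1 h7).resolve_right h8.ne')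
  have h5 : ∀ t j, (γ t).2.2.2 j = μ j := by
    intro t j
    have := h1 t j
    rwa [h4 t, mul_zero, add_zero] at this
  -- the angles
  have h6 : ∀ j, (γ T).2.1 j - (γ 0).2.1 j = μ j * T := by
    intro j
    have h7 : ∀ t, HasDerivAt (fun t => (γ t).2.1 j - μ j * t) 0 t := by
      intro t
      have h8 := (dφ h j t).sub ((hasDerivAt_id t).const_mul (μ j))
      refine h8.congr_deriv ?_
      rw [h5 t j]; ring
    have h8 := is_const_of_deriv_eq_zero (fun t => (h7 t).differentiableAt) (fun t => (h7 t).deriv) T 0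
    simp only [mul_zero, sub_zero] at h8
    linarith
  have h7 : ∀ j, ∃ k : ℤ, μ j * T = k * (2 * π) := by
    intro j
    have h8 := congrArg (fun Q : Circle × (Fin n → Circle) × ℝ × (Fin n → ℝ) => Q.2.1 j) (hper 0)
    simp only [proj, zero_add] at h8
    obtain ⟨k, hk⟩ := Circle.exp_eq_exp.1 h8
    exact ⟨k, by rw [← h6 j, hk]; ring⟩
  choose k hk using h7
  have h8 : ∑ j, ((k j : ℚ)) • v j = 0 := by
    have h9 : (2 * π) * ∑ j, v j * (k j : ℝ) = 0 := by
      have h10 : (2 * π) * ∑ j, v j * (k j : ℝ) = T * ∑ j, v j * μ j := by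
        rw [Finset.mul_sum, Finset.mul_sum]
        refine Finset.sum_congr rfl fun j _ => ?_
        have := hk j
        linear_combination (-v j) * this
      rw [h10, h3, mul_zero]
    have h10 := (mul_eq_zero.1 h9).resolve_left (by positivity)
    rw [← h10]
    refine Finset.sum_congr rfl fun j _ => ?_
    rw [Rat.smul_def]
    push_cast
    ring
  have h9 := Fintype.linearIndependent_iff.1 hli (fun j => (k j : ℚ)) h8
  have h10 : ∀ j, μ j = 0 := by
    intro j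
    have h11 : k j = 0 := by exact_mod_cast h9 j
    have h12 := hk j
    rw [h11] at h12
    simp only [Int.cast_zero, zero_mul] at h12
    exact (mul_eq_zero.1 h12).resolve_right hT.ne'
  rw [Finset.sum_eq_zero fun j _ => by rw [h10 j]; ring] at h2
  exact zero_ne_one h2

end orbit

/-- real numbers which are linearly independent over `ℚ` -/
theorem exists_li (n : ℕ) : ∃ v : Fin n → ℝ, LinearIndependent ℚ v := by
  have h1 : (n : Cardinal) ≤ Module.rank ℚ ℝ := by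
    rw [Real.rank_rat_real]
    exact (Cardinal.nat_lt_continuum n).le
  obtain ⟨s, hs, hli⟩ := le_rank_iff_exists_linearIndependent_finset.1 h1
  refine ⟨fun i => ((s.equivFin.symm (Fin.cast hs.symm i) : s) : ℝ), ?_⟩
  exact hli.comp _ (s.equivFin.symm.injective.comp (Fin.cast_injective hs.symm))

end Pool.Agent.Q190.We
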