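import Pool.Agent.Q190.We.Ana
import Pool.Agent.Q190.We.Defs

/-!
# The singular Weinstein conjecture fails for all `m` and in all odd dimensions
-/

set_option autoImplicit false

namespace Pool.Agent.Q190.We

open Filter Topology Real

variable {n : ℕ}

/-- the function `s = ⟨v, p⟩` -/
noncomputable def sv (v : Fin n → ℝ) (P : E n) : ℝ := ∑ j, v j * P.2.2.2 j

/-- the form `p₀ dx / sin^m x + ∑ (p_j + v_j (2 - cos x) p₀) dφ_j` -/
noncomputable def fA (v : Fin n → ℝ) (P : E n) : E n :=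
  (P.2.2.1, fun j => P.2.2.2 j + v j * (2 - cos P.1) * P.2.2.1, 0, 0)

/-- the Reeb field -/
noncomputable def fR (m : ℕ) (v : Fin n → ℝ) (P : E n) : E n :=
  (P.2.2.1 - (2 - cos P.1) * sv v P, P.2.2.2,
    sin P.1 ^ m * (P.2.2.1 * sin P.1 * sv v P),
    fun j => -(v j) * (sin P.1 * (sin P.1 ^ m * (P.2.2.1 - (2 - cos P.1) * sv v P)) * P.2.2.1 +
      (2 - cos P.1) * (sin P.1 ^ m * (P.2.2.1 * sin P.1 * sv v P))))

theorem fA_apply (v : Fin n → ℝ) (P X : E n) : ev (fA v) P X =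
    P.2.2.1 * X.1 + ∑ j, (P.2.2.2 j + v j * (2 - cos P.1) * P.2.2.1) * X.2.1 j := by
  simp [ev, fA]

theorem fA_der (v : Fin n → ℝ) (P W Y : E n) : der (fA v) P W Y =
    W.2.2.1 * Y.1 + ∑ j, (W.2.2.2 j + (v j * sin P.1 * P.2.2.1 * W.1 +
      v j * (2 - cos P.1) * W.2.2.1)) * Y.2.1 j := by
  have h0 : (fun t : ℝ => ev (fA v) (P + t • W) Y) = fun t : ℝ =>
      (P.2.2.1 + t * W.2.2.1) * Y.1 + ∑ j, ((P.2.2.2 j + t * W.2.2.2 j) +
        v j * (2 - cos (P.1 + t * W.1)) * (P.2.2.1 + t * W.2.2.1)) * Y.2.1 j := by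
    funext t
    rw [fA_apply]
    rfl
  have hl : ∀ a b : ℝ, HasDerivAt (fun t : ℝ => a + t * b) b 0 := by
    intro a b
    have := ((hasDerivAt_id (0:ℝ)).mul_const b).const_add a
    simpa using this
  have h1 : HasDerivAt (fun t : ℝ => (P.2.2.1 + t * W.2.2.1) * Y.1 +
      ∑ j, ((P.2.2.2 j + t * W.2.2.2 j) + v j * (2 - cos (P.1 + t * W.1)) *
        (P.2.2.1 + t * W.2.2.1)) * Y.2.1 j)
      (W.2.2.1 * Y.1 + ∑ j, (W.2.2.2 j + (v j * sin P.1 * P.2.2.1 * W.1 +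
        v j * (2 - cos P.1) * W.2.2.1)) * Y.2.1 j) 0 := by
    refine ((hl _ _).mul_const _).add (HasDerivAt.fun_sum fun j _ => ?_)
    refine HasDerivAt.mul_const ?_ _
    refine (hl _ _).add ?_
    have h2 : HasDerivAt (fun t : ℝ => v j * (2 - cos (P.1 + t * W.1))) (v j * sin P.1 * W.1) 0 := by
      have h3 := (((hl P.1 W.1).cos).const_sub 2).const_mul (v j)
      refine h3.congr_deriv ?_
      simp; ring
    refine (h2.mul (hl P.2.2.1 W.2.2.1)).congr_deriv ?_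
    simp; ring
  unfold der
  rw [h0, h1.deriv]

theorem dA_eq (m : ℕ) (v : Fin n → ℝ) (P X Y : E n) : dA m (fA v) P X Y =
    (X.2.2.1 * Y.1 + ∑ j, (X.2.2.2 j + (v j * sin P.1 * P.2.2.1 * (sin P.1 ^ m * X.1) +
      v j * (2 - cos P.1) * X.2.2.1)) * Y.2.1 j) -
    (Y.2.2.1 * X.1 + ∑ j, (Y.2.2.2 j + (v j * sin P.1 * P.2.2.1 * (sin P.1 ^ m * Y.1) +
      v j * (2 - cos P.1) * Y.2.2.1)) * X.2.1 j) := by
  unfold dA
  rw [fA_der, fA_der]
  rfl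

theorem sv_sum (v : Fin n → ℝ) (P : E n) (a : ℝ) : ∑ j, (v j * a) * P.2.2.2 j = a * sv v P := by
  unfold sv
  rw [Finset.mul_sum]
  exact Finset.sum_congr rfl fun j _ => by ring

theorem reeb_tangent (m : ℕ) (v : Fin n → ℝ) (P : E n) : fR m v P ∈ bT P := by
  show P.2.2.1 * (sin P.1 ^ m * (P.2.2.1 * sin P.1 * sv v P)) + ∑ j, P.2.2.2 j *
    (-(v j) * (sin P.1 * (sin P.1 ^ m * (P.2.2.1 - (2 - cos P.1) * sv v P)) * P.2.2.1 +
      (2 - cos P.1) * (sin P.1 ^ m * (P.2.2.1 * sin P.1 * sv v P)))) = 0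
  set B := sin P.1 * (sin P.1 ^ m * (P.2.2.1 - (2 - cos P.1) * sv v P)) * P.2.2.1 +
      (2 - cos P.1) * (sin P.1 ^ m * (P.2.2.1 * sin P.1 * sv v P)) with hB
  have h1 : ∑ j, P.2.2.2 j * (-(v j) * B) = -B * sv v P := by
    rw [← sv_sum]
    exact Finset.sum_congr rfl fun j _ => by ring
  rw [h1, hB]
  ring

theorem reeb_one (m : ℕ) (v : Fin n → ℝ) {P : E n} (hP : P ∈ Mfd n) :
    ev (fA v) P (fR m v P) = 1 := by
  rw [fA_apply]
  show P.2.2.1 * (P.2.2.1 - (2 - cos P.1) * sv v P) +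
    ∑ j, (P.2.2.2 j + v j * (2 - cos P.1) * P.2.2.1) * P.2.2.2 j = 1
  have h1 : ∑ j, (P.2.2.2 j + v j * (2 - cos P.1) * P.2.2.1) * P.2.2.2 j =
      ∑ j, P.2.2.2 j ^ 2 + ((2 - cos P.1) * P.2.2.1) * sv v P := by
    rw [← sv_sum, ← Finset.sum_add_distrib]
    exact Finset.sum_congr rfl fun j _ => by ring
  rw [h1]
  have h2 : P.2.2.1 ^ 2 + ∑ j, P.2.2.2 j ^ 2 = 1 := hP
  linear_combination h2

theorem reeb_zero (m : ℕ) (v : Fin n → ℝ) (P : E n) {Y : E n} (hY : Y ∈ bT P) :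
    dA m (fA v) P (fR m v P) Y = 0 := by
  rw [dA_eq]
  have hY' : P.2.2.1 * Y.2.2.1 + ∑ j, P.2.2.2 j * Y.2.2.2 j = 0 := hY
  have h1 : ∀ j, (fR m v P).2.2.2 j + (v j * sin P.1 * P.2.2.1 * (sin P.1 ^ m * (fR m v P).1) +
      v j * (2 - cos P.1) * (fR m v P).2.2.1) = 0 := by
    intro j
    show -(v j) * (sin P.1 * (sin P.1 ^ m * (P.2.2.1 - (2 - cos P.1) * sv v P)) * P.2.2.1 +
      (2 - cos P.1) * (sin P.1 ^ m * (P.2.2.1 * sin P.1 * sv v P))) +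
      (v j * sin P.1 * P.2.2.1 * (sin P.1 ^ m * (P.2.2.1 - (2 - cos P.1) * sv v P)) +
      v j * (2 - cos P.1) * (sin P.1 ^ m * (P.2.2.1 * sin P.1 * sv v P))) = 0
    ring
  have h2 : ∑ j, ((fR m v P).2.2.2 j + (v j * sin P.1 * P.2.2.1 * (sin P.1 ^ m * (fR m v P).1) +
      v j * (2 - cos P.1) * (fR m v P).2.2.1)) * Y.2.1 j = 0 :=
    Finset.sum_eq_zero fun j _ => by rw [h1 j, zero_mul]
  rw [h2]
  show sin P.1 ^ m * (P.2.2.1 * sin P.1 * sv v P) * Y.1 + 0 -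
    (Y.2.2.1 * (P.2.2.1 - (2 - cos P.1) * sv v P) + ∑ j, (Y.2.2.2 j + (v j * sin P.1 * P.2.2.1 *
      (sin P.1 ^ m * Y.1) + v j * (2 - cos P.1) * Y.2.2.1)) * P.2.2.2 j) = 0
  have h3 : ∑ j, (Y.2.2.2 j + (v j * sin P.1 * P.2.2.1 *
      (sin P.1 ^ m * Y.1) + v j * (2 - cos P.1) * Y.2.2.1)) * P.2.2.2 j =
      ∑ j, P.2.2.2 j * Y.2.2.2 j + (sin P.1 * P.2.2.1 * (sin P.1 ^ m * Y.1) +
        (2 - cos P.1) * Y.2.2.1) * sv v P := by
    rw [← sv_sum, ← Finset.sum_add_distrib]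
    exact Finset.sum_congr rfl fun j _ => by ring
  rw [h3]
  linear_combination (-1) * hY'

theorem dA_sub (m : ℕ) (v : Fin n → ℝ) (P X Y W : E n) (c : ℝ) :
    dA m (fA v) P X (Y - c • W) = dA m (fA v) P X Y - c * dA m (fA v) P X W := by
  rw [dA_eq, dA_eq, dA_eq]
  have h1 : ∀ (a y w : Fin n → ℝ), ∑ j, a j * (y j - c * w j) = ∑ j, a j * y j - c * ∑ j, a j * w j := by
    intro a y w
    rw [Finset.mul_sum, ← Finset.sum_sub_distrib]
    exact Finset.sum_congr rfl fun j _ => by ring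
  have h2 : ∑ j, ((Y - c • W).2.2.2 j + (v j * sin P.1 * P.2.2.1 * (sin P.1 ^ m * (Y - c • W).1) +
      v j * (2 - cos P.1) * (Y - c • W).2.2.1)) * X.2.1 j =
      ∑ j, (Y.2.2.2 j + (v j * sin P.1 * P.2.2.1 * (sin P.1 ^ m * Y.1) +
      v j * (2 - cos P.1) * Y.2.2.1)) * X.2.1 j - c * ∑ j, (W.2.2.2 j + (v j * sin P.1 * P.2.2.1 *
        (sin P.1 ^ m * W.1) + v j * (2 - cos P.1) * W.2.2.1)) * X.2.1 j := by
    rw [Finset.mul_sum, ← Finset.sum_sub_distrib]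
    refine Finset.sum_congr rfl fun j _ => ?_
    show ((Y.2.2.2 j - c * W.2.2.2 j) + (v j * sin P.1 * P.2.2.1 * (sin P.1 ^ m * (Y.1 - c * W.1)) +
      v j * (2 - cos P.1) * (Y.2.2.1 - c * W.2.2.1))) * X.2.1 j = _
    ring
  have h3 := h1 (fun j => X.2.2.2 j + (v j * sin P.1 * P.2.2.1 * (sin P.1 ^ m * X.1) +
      v j * (2 - cos P.1) * X.2.2.1)) Y.2.1 W.2.1
  have h4 : ∑ j, (X.2.2.2 j + (v j * sin P.1 * P.2.2.1 * (sin P.1 ^ m * X.1) +
      v j * (2 - cos P.1) * X.2.2.1)) * (Y - c • W).2.1 j = ∑ j, (X.2.2.2 j + (v j * sin P.1 *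
        P.2.2.1 * (sin P.1 ^ m * X.1) + v j * (2 - cos P.1) * X.2.2.1)) * (Y.2.1 j - c * W.2.1 j) :=
    rfl
  rw [h2, h4, h3]
  show X.2.2.1 * (Y.1 - c * W.1) + _ - ((Y.2.2.1 - c * W.2.2.1) * X.1 + _) = _
  ring

theorem dA_swap (m : ℕ) (v : Fin n → ℝ) (P X Y : E n) :
    dA m (fA v) P X Y = -dA m (fA v) P Y X := by
  unfold dA; ring

theorem ev_sub (v : Fin n → ℝ) (P Y W : E n) (c : ℝ) :
    ev (fA v) P (Y - c • W) = ev (fA v) P Y - c * ev (fA v) P W := by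
  rw [fA_apply, fA_apply, fA_apply]
  have h1 : ∑ j, (P.2.2.2 j + v j * (2 - cos P.1) * P.2.2.1) * (Y - c • W).2.1 j =
      ∑ j, (P.2.2.2 j + v j * (2 - cos P.1) * P.2.2.1) * Y.2.1 j -
      c * ∑ j, (P.2.2.2 j + v j * (2 - cos P.1) * P.2.2.1) * W.2.1 j := by
    rw [Finset.mul_sum, ← Finset.sum_sub_distrib]
    refine Finset.sum_congr rfl fun j _ => ?_
    show (P.2.2.2 j + v j * (2 - cos P.1) * P.2.2.1) * (Y.2.1 j - c * W.2.1 j) = _
    ring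
  rw [h1]
  show P.2.2.1 * (Y.1 - c * W.1) + _ = _
  ring

theorem nondeg (m : ℕ) (v : Fin n → ℝ) {P : E n} (hP : P ∈ Mfd n) {X : E n} (hX : X ∈ bT P)
    (hA : ev (fA v) P X = 0) (h : ∀ Y ∈ bT P, ev (fA v) P Y = 0 → dA m (fA v) P X Y = 0) :
    X = 0 := by
  -- all `Y`
  have hall : ∀ Y ∈ bT P, dA m (fA v) P X Y = 0 := by
    intro Y hY
    have h1 : Y - (ev (fA v) P Y) • fR m v P ∈ bT P := by
      have hR : P.2.2.1 * (fR m v P).2.2.1 + ∑ j, P.2.2.2 j * (fR m v P).2.2.2 j = 0 :=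
        reeb_tangent m v P
      have hY' : P.2.2.1 * Y.2.2.1 + ∑ j, P.2.2.2 j * Y.2.2.2 j = 0 := hY
      show P.2.2.1 * (Y.2.2.1 - (ev (fA v) P Y) * (fR m v P).2.2.1) +
        ∑ j, P.2.2.2 j * (Y.2.2.2 j - (ev (fA v) P Y) * (fR m v P).2.2.2 j) = 0
      have h2 : ∑ j, P.2.2.2 j * (Y.2.2.2 j - (ev (fA v) P Y) * (fR m v P).2.2.2 j) =
          ∑ j, P.2.2.2 j * Y.2.2.2 j - (ev (fA v) P Y) * ∑ j, P.2.2.2 j * (fR m v P).2.2.2 j := by
        rw [Finset.mul_sum, ← Finset.sum_sub_distrib]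
        exact Finset.sum_congr rfl fun j _ => by ring
      rw [h2]
      linear_combination hY' - (ev (fA v) P Y) * hR
    have h2 := h _ h1 (by rw [ev_sub, reeb_one m v hP]; simp)
    rw [dA_sub, dA_swap m v P X (fR m v P), reeb_zero m v P hX] at h2
    simpa using h2
  set e := 2 - cos P.1 with he
  -- the field in the sphere
  have hX' : P.2.2.1 * X.2.2.1 + ∑ j, P.2.2.2 j * X.2.2.2 j = 0 := hX
  have hA' : P.2.2.1 * X.1 + ∑ j, (P.2.2.2 j + v j * e * P.2.2.1) * X.2.1 j = 0 := by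
    rw [← hA, fA_apply]
  set a := X.1 + e * ∑ j, v j * X.2.1 j with ha
  have k1 : P.2.2.1 * a + ∑ j, P.2.2.2 j * X.2.1 j = 0 := by
    rw [← hA', ha]
    have : ∑ j, (P.2.2.2 j + v j * e * P.2.2.1) * X.2.1 j = ∑ j, P.2.2.2 j * X.2.1 j +
        e * P.2.2.1 * ∑ j, v j * X.2.1 j := by
      rw [Finset.mul_sum, ← Finset.sum_add_distrib]
      exact Finset.sum_congr rfl fun j _ => by ring
    rw [this]; ring
  have k2 := hall ((0, 0, a, X.2.1) : E n) k1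
  rw [dA_eq] at k2
  have k3 : a ^ 2 + ∑ j, X.2.1 j ^ 2 = 0 := by
    have h1 : ∑ j, (X.2.1 j + (v j * sin P.1 * P.2.2.1 * (sin P.1 ^ m * 0) +
        v j * (2 - cos P.1) * a)) * X.2.1 j = ∑ j, X.2.1 j ^ 2 + (e * a) * ∑ j, v j * X.2.1 j := by
      rw [Finset.mul_sum, ← Finset.sum_add_distrib]
      exact Finset.sum_congr rfl fun j _ => by rw [← he]; ring
    have h2 : X.2.2.1 * (0:ℝ) + ∑ j, (X.2.2.2 j + (v j * sin P.1 * P.2.2.1 * (sin P.1 ^ m * X.1) +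
      v j * (2 - cos P.1) * X.2.2.1)) * (0 : Fin n → ℝ) j - (a * X.1 + ∑ j, (X.2.1 j +
        (v j * sin P.1 * P.2.2.1 * (sin P.1 ^ m * 0) + v j * (2 - cos P.1) * a)) * X.2.1 j) = 0 := k2
    rw [h1] at h2
    simp only [Pi.zero_apply, mul_zero, Finset.sum_const_zero, add_zero, zero_sub, neg_eq_zero] at h2
    rw [ha] at h2 ⊢
    linear_combination h2
  have k4 : a = 0 := by
    have h1 : 0 ≤ ∑ j, X.2.1 j ^ 2 := Finset.sum_nonneg fun j _ => sq_nonneg _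
    have : a ^ 2 = 0 := by nlinarith [sq_nonneg a]
    exact pow_eq_zero_iff (two_ne_zero) |>.1 this
  have k5 : ∀ j, X.2.1 j = 0 := by
    intro j
    have h1 : ∑ j, X.2.1 j ^ 2 = 0 := by rw [k4] at k3; simpa using k3
    have h2 := (Finset.sum_eq_zero_iff_of_nonneg fun j _ => sq_nonneg (X.2.1 j)).1 h1 j
      (Finset.mem_univ j)
    exact pow_eq_zero_iff (two_ne_zero) |>.1 h2
  have k6 : X.1 = 0 := by
    have : ∑ j, v j * X.2.1 j = 0 := Finset.sum_eq_zero fun j _ => by rw [k5 j, mul_zero]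
    rw [this, mul_zero, add_zero] at ha
    rw [← ha, k4]
  -- `X₀`
  have k7 : X.2.2.1 = 0 := by
    have h1 : ((1, 0, 0, 0) : E n) ∈ bT P := by simp [bT]
    have h2 := hall _ h1
    rw [dA_eq] at h2
    simpa [k5, k6] using h2
  have k8 : ∀ j, X.2.2.2 j = 0 := by
    intro j
    have h1 : ((0, Pi.single j 1, 0, 0) : E n) ∈ bT P := by simp [bT]
    have h2 := hall _ h1
    rw [dA_eq] at h2
    have h3 : ∑ i, (X.2.2.2 i + (v i * sin P.1 * P.2.2.1 * (sin P.1 ^ m * X.1) +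
        v i * (2 - cos P.1) * X.2.2.1)) * (Pi.single j 1 : Fin n → ℝ) i = X.2.2.2 j := by
      rw [Finset.sum_eq_single j]
      · simp [k6, k7]
      · intro i _ hi; simp [hi]
      · simp
    rw [h3] at h2
    simpa [k5, k6] using h2
  ext
  · exact k6
  · exact k5 _
  · exact k7
  · exact k8 _

end Pool.Agent.Q190.We
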